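import Mathlib

set_option autoImplicit false

/-!
# MP_2970b2_an: the second coefficient in the classes `CV(R₁, R₂)`

For `0 ≤ R₁ ≤ R₂` the class `CV(R₁, R₂)` is nonempty iff `R₁ ≤ 1` and `0 < R₂`, and then
`sup |a₂| = √(1 - R₁)`.

Upper bound: with `h = 1 + z f'' / f'` one has `Re h ≥ R₁ |f'|` on the circle, `Re h ≥ 0` in the
disc, and for every unimodular `c` the function `(4 R₁ f' ^ 3 + c f'' ^ 2) / (2 f' + z f'') ^ 2` is
analytic in the disc and bounded by one on the circle; its value at the origin is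
`R₁ + c a₂ ^ 2`.  Extremal functions: `z / (1 - c z)`, whose boundary curvature is `1 - c ^ 2`.
-/

namespace Pool.Agent.Results.MP_2970b2_an.SecondCoefficient

open Complex Metric Set

/-- `MemCV R₁ R₂ f`: the function `f` is analytic, univalent and convex in the open unit disc,
`f 0 = 0`, `f' 0 = 1`; the functions `f`, `f'`, `f''` extend continuously to the closed disc
(the extensions are `g₀`, `g₁`, `g₂`), the extension of `f'` has no zero on the closed disc, and the
curvature `Re (1 + z f'' / f') / |f'|` of the boundary curve lies in `[R₁, R₂]` at every point of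
the unit circle. -/
structure MemCV (R₁ R₂ : ℝ) (f : ℂ → ℂ) : Prop where
  analytic : DifferentiableOn ℂ f (ball 0 1)
  univalent : InjOn f (ball 0 1)
  convex : Convex ℝ (f '' ball 0 1)
  zero : f 0 = 0
  one : deriv f 0 = 1
  boundary : ∃ g₀ g₁ g₂ : ℂ → ℂ,
    ContinuousOn g₀ (closedBall 0 1) ∧ ContinuousOn g₁ (closedBall 0 1) ∧
    ContinuousOn g₂ (closedBall 0 1) ∧
    EqOn g₀ f (ball 0 1) ∧ EqOn g₁ (deriv f) (ball 0 1) ∧ EqOn g₂ (deriv (deriv f)) (ball 0 1) ∧
    (∀ z ∈ closedBall (0 : ℂ) 1, g₁ z ≠ 0) ∧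
    ∀ z ∈ sphere (0 : ℂ) 1,
      R₁ ≤ (1 + z * g₂ z / g₁ z).re / ‖g₁ z‖ ∧ (1 + z * g₂ z / g₁ z).re / ‖g₁ z‖ ≤ R₂

/-- The second Taylor coefficient `a₂ = f''(0) / 2`. -/
noncomputable def a₂ (f : ℂ → ℂ) : ℂ := deriv (deriv f) 0 / 2

lemma closure_ball' : closure (ball (0 : ℂ) 1) = closedBall 0 1 :=
  closure_ball _ one_ne_zero

lemma frontier_ball' : frontier (ball (0 : ℂ) 1) = sphere 0 1 :=
  frontier_ball _ one_ne_zero

lemma zero_mem : (0 : ℂ) ∈ closure (ball (0 : ℂ) 1) := by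
  rw [closure_ball']; simp

section upper

variable {R₁ R₂ : ℝ} {f : ℂ → ℂ}

/-- The upper bound, and positivity of `R₂`. -/
lemma upper (h0 : 0 ≤ R₁) (hf : MemCV R₁ R₂ f) : R₁ + ‖a₂ f‖ ^ 2 ≤ 1 ∧ 0 < R₂ := by
  obtain ⟨g₀, g₁, g₂, -, hc1, hc2, -, he1, he2, hne, hcurv⟩ := hf.boundary
  have hd1' : DifferentiableOn ℂ (deriv f) (ball 0 1) := hf.analytic.deriv isOpen_ball
  have hd2' : DifferentiableOn ℂ (deriv (deriv f)) (ball 0 1) := hd1'.deriv isOpen_ball
  have hd1 : DifferentiableOn ℂ g₁ (ball 0 1) := hd1'.congr he1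
  have hd2 : DifferentiableOn ℂ g₂ (ball 0 1) := hd2'.congr he2
  have hz0 : (0 : ℂ) ∈ ball (0 : ℂ) 1 := by simp
  have hg10 : g₁ 0 = 1 := by rw [he1 hz0, hf.one]
  have hg20 : g₂ 0 = 2 * a₂ f := by
    rw [he2 hz0]; unfold a₂; ring
  have hsub : ball (0 : ℂ) 1 ⊆ closedBall 0 1 := ball_subset_closedBall
  -- the function `h`
  set h : ℂ → ℂ := fun z => 1 + z * g₂ z / g₁ z with hh
  have hdh : DifferentiableOn ℂ h (ball 0 1) := by
    apply DifferentiableOn.add (differentiableOn_const _)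
    exact (differentiableOn_id.mul hd2).div hd1 fun z hz => hne z (hsub hz)
  have hch : ContinuousOn h (closedBall 0 1) := by
    apply ContinuousOn.add continuousOn_const
    exact (continuousOn_id.mul hc2).div hc1 fun z hz => hne z hz
  have hdch : DiffContOnCl ℂ h (ball 0 1) := ⟨hdh, by rw [closure_ball']; exact hch⟩
  have hreb : ∀ z ∈ sphere (0 : ℂ) 1, R₁ * ‖g₁ z‖ ≤ (h z).re := by
    intro z hz
    have hpos : 0 < ‖g₁ z‖ := norm_pos_iff.2 (hne z (sphere_subset_closedBall hz))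
    exact (le_div_iff₀ hpos).1 (hcurv z hz).1
  have hre0 : ∀ z ∈ sphere (0 : ℂ) 1, 0 ≤ (h z).re := fun z hz =>
    le_trans (mul_nonneg h0 (norm_nonneg _)) (hreb z hz)
  have hre : ∀ z ∈ closedBall (0 : ℂ) 1, 0 ≤ (h z).re := by
    intro z hz
    have hE : DiffContOnCl ℂ (fun z => Complex.exp (-h z)) (ball 0 1) :=
      ⟨(hdh.neg).cexp, by rw [closure_ball']; exact hch.neg.cexp⟩
    have := Complex.norm_le_of_forall_mem_frontier_norm_le isBounded_ball hE (C := 1)
      (fun w hw => by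
        rw [frontier_ball'] at hw
        rw [Complex.norm_exp, Complex.neg_re]
        have := hre0 w hw
        exact Real.exp_le_one_iff.2 (by linarith)) (z := z) (by rw [closure_ball']; exact hz)
    rw [Complex.norm_exp, Complex.neg_re, Real.exp_le_one_iff] at this
    linarith
  have hnum : ∀ z ∈ closedBall (0 : ℂ) 1, 2 * g₁ z + z * g₂ z = g₁ z * (1 + h z) := by
    intro z hz
    have := hne z hz
    simp only [hh]
    field_simp
    ring
  have h1h : ∀ z ∈ closedBall (0 : ℂ) 1, 1 + h z ≠ 0 := by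
    intro z hz h'
    have h1 := hre z hz
    have h2 : (1 + h z).re = 0 := by rw [h']; simp
    rw [Complex.add_re, Complex.one_re] at h2
    linarith
  have hden : ∀ z ∈ closedBall (0 : ℂ) 1, 2 * g₁ z + z * g₂ z ≠ 0 := by
    intro z hz
    rw [hnum z hz]
    exact mul_ne_zero (hne z hz) (h1h z hz)
  have key : ∀ c : ℂ, ‖c‖ = 1 → ‖(R₁ : ℂ) + c * a₂ f ^ 2‖ ≤ 1 := by
    intro c hc
    set G : ℂ → ℂ := fun z => (4 * R₁ * g₁ z ^ 3 + c * g₂ z ^ 2) / (2 * g₁ z + z * g₂ z) ^ 2
      with hG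
    have hdG : DiffContOnCl ℂ G (ball 0 1) := by
      constructor
      · apply DifferentiableOn.div
        · exact ((hd1.pow 3).const_mul _).add ((hd2.pow 2).const_mul _)
        · exact ((hd1.const_mul _).add (differentiableOn_id.mul hd2)).pow 2
        · intro z hz
          exact pow_ne_zero _ (hden z (hsub hz))
      · rw [closure_ball']
        apply ContinuousOn.div
        · exact (continuousOn_const.mul (hc1.pow 3)).add (continuousOn_const.mul (hc2.pow 2))
        · exact ((continuousOn_const.mul hc1).add (continuousOn_id.mul hc2)).pow 2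
        · intro z hz
          exact pow_ne_zero _ (hden z hz)
    have hb : ∀ z ∈ frontier (ball (0 : ℂ) 1), ‖G z‖ ≤ 1 := by
      intro z hz
      rw [frontier_ball'] at hz
      have hzc : z ∈ closedBall (0 : ℂ) 1 := sphere_subset_closedBall hz
      have hz1 : ‖z‖ = 1 := by simpa using hz
      have hpos : 0 < ‖g₁ z‖ := norm_pos_iff.2 (hne z hzc)
      simp only [hG]
      rw [norm_div, norm_pow, div_le_one (by have := hden z hzc; positivity)]
      have e1 : ‖g₂ z‖ = ‖g₁ z‖ * ‖h z - 1‖ := by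
        have : z * g₂ z = g₁ z * (h z - 1) := by
          simp only [hh]
          have := hne z hzc
          field_simp
          ring
        have h2 := congrArg norm this
        rw [norm_mul, norm_mul, hz1, one_mul] at h2
        exact h2
      have e2 : ‖2 * g₁ z + z * g₂ z‖ = ‖g₁ z‖ * ‖1 + h z‖ := by
        rw [hnum z hzc, norm_mul]
      have e3 : ‖1 + h z‖ ^ 2 = ‖h z - 1‖ ^ 2 + 4 * (h z).re := by
        rw [← Complex.normSq_eq_norm_sq, ← Complex.normSq_eq_norm_sq, Complex.normSq_apply,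
          Complex.normSq_apply]
        simp
        ring
      have e4 := hreb z hz
      calc ‖4 * (R₁ : ℂ) * g₁ z ^ 3 + c * g₂ z ^ 2‖
          ≤ ‖4 * (R₁ : ℂ) * g₁ z ^ 3‖ + ‖c * g₂ z ^ 2‖ := norm_add_le _ _
        _ = 4 * R₁ * ‖g₁ z‖ ^ 3 + ‖g₂ z‖ ^ 2 := by
            rw [norm_mul, norm_mul, norm_mul, hc, norm_pow, norm_pow, one_mul]
            congr 2
            rw [Complex.norm_real, Real.norm_of_nonneg h0]
            norm_num
        _ = ‖g₁ z‖ ^ 2 * (4 * (R₁ * ‖g₁ z‖) + ‖h z - 1‖ ^ 2) := by rw [e1]; ring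
        _ ≤ ‖g₁ z‖ ^ 2 * (4 * (h z).re + ‖h z - 1‖ ^ 2) := by gcongr
        _ = (‖2 * g₁ z + z * g₂ z‖) ^ 2 := by rw [e2, mul_pow, e3]; ring
    have := Complex.norm_le_of_forall_mem_frontier_norm_le isBounded_ball hdG hb zero_mem
    have e5 : G 0 = (R₁ : ℂ) + c * a₂ f ^ 2 := by
      simp only [hG]
      rw [hg10, hg20]
      ring
    rwa [e5] at this
  constructor
  · by_cases ha : a₂ f = 0
    · have := key 1 (by simp)
      rw [ha] at this ⊢
      simp only [ne_eq, OfNat.ofNat_ne_zero, not_false_eq_true, zero_pow, mul_zero, add_zero,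
        norm_zero] at this ⊢
      rwa [Complex.norm_real, Real.norm_of_nonneg h0] at this
    · have hn : (‖a₂ f‖ : ℂ) ≠ 0 := by
        exact_mod_cast (norm_ne_zero_iff.2 ha)
      have := key ((starRingEnd ℂ (a₂ f)) ^ 2 / (‖a₂ f‖ : ℂ) ^ 2) (by
        rw [norm_div, norm_pow, norm_pow, RCLike.norm_conj, Complex.norm_real, norm_norm]
        exact div_self (pow_ne_zero _ (norm_ne_zero_iff.2 ha)))
      have e6 : (starRingEnd ℂ (a₂ f)) ^ 2 / (‖a₂ f‖ : ℂ) ^ 2 * a₂ f ^ 2
          = (‖a₂ f‖ : ℂ) ^ 2 := by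
        rw [div_mul_eq_mul_div, ← mul_pow, Complex.conj_mul', div_eq_iff (pow_ne_zero _ hn)]
        ring
      rw [e6] at this
      have e7 : (R₁ : ℂ) + (‖a₂ f‖ : ℂ) ^ 2 = ((R₁ + ‖a₂ f‖ ^ 2 : ℝ) : ℂ) := by push_cast; ring
      rw [e7, Complex.norm_real, Real.norm_of_nonneg (by positivity)] at this
      exact this
  · by_contra hR
    push Not at hR
    have hE : DiffContOnCl ℂ (fun z => Complex.exp (h z)) (ball 0 1) :=
      ⟨hdh.cexp, by rw [closure_ball']; exact hch.cexp⟩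
    have := Complex.norm_le_of_forall_mem_frontier_norm_le isBounded_ball hE (C := 1)
      (fun w hw => by
        rw [frontier_ball'] at hw
        rw [Complex.norm_exp]
        have hpos : 0 < ‖g₁ w‖ := norm_pos_iff.2 (hne w (sphere_subset_closedBall hw))
        have h2 := (div_le_iff₀ hpos).1 ((hcurv w hw).2)
        have h3 : (h w).re ≤ 0 := le_trans h2 (mul_nonpos_of_nonpos_of_nonneg hR hpos.le)
        exact Real.exp_le_one_iff.2 h3) zero_mem
    rw [Complex.norm_exp, Real.exp_le_one_iff] at this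
    simp only [hh, zero_mul, zero_div, add_zero, Complex.one_re] at this
    linarith

end upper

section example_functions

/-- The function `z / (1 - c z)`. -/
noncomputable def F (c : ℝ) (z : ℂ) : ℂ := z / (1 - c * z)

variable {c : ℝ}

lemma den_ne (h0 : 0 ≤ c) (h1 : c < 1) {z : ℂ} (hz : z ∈ closedBall (0 : ℂ) 1) :
    1 - (c : ℂ) * z ≠ 0 := by
  intro h
  have h2 : (c : ℂ) * z = 1 := by linear_combination -h
  have h3 := congrArg norm h2
  rw [norm_mul, norm_one, Complex.norm_real, Real.norm_of_nonneg h0] at h3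
  have h4 : ‖z‖ ≤ 1 := by simpa using hz
  nlinarith [norm_nonneg z]

lemma hasDeriv_F (h0 : 0 ≤ c) (h1 : c < 1) {z : ℂ} (hz : z ∈ closedBall (0 : ℂ) 1) :
    HasDerivAt (F c) (1 / (1 - c * z) ^ 2) z := by
  have hne := den_ne h0 h1 hz
  have hd : HasDerivAt (fun z : ℂ => 1 - (c : ℂ) * z) (-(c : ℂ)) z := by
    have := ((hasDerivAt_id z).const_mul (c : ℂ)).const_sub 1
    simpa using this
  refine ((hasDerivAt_id z).div hd hne).congr_deriv ?_
  congr 1
  simp only [id]
  ring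

lemma hasDeriv_F' (h0 : 0 ≤ c) (h1 : c < 1) {z : ℂ} (hz : z ∈ closedBall (0 : ℂ) 1) :
    HasDerivAt (fun z : ℂ => 1 / (1 - (c : ℂ) * z) ^ 2) (2 * c / (1 - c * z) ^ 3) z := by
  have hne := den_ne h0 h1 hz
  have hd : HasDerivAt (fun z : ℂ => 1 - (c : ℂ) * z) (-(c : ℂ)) z := by
    have := ((hasDerivAt_id z).const_mul (c : ℂ)).const_sub 1
    simpa using this
  refine ((hasDerivAt_const z (1 : ℂ)).div (hd.pow 2) (pow_ne_zero _ hne)).congr_deriv ?_
  simp only [Pi.pow_apply]
  rw [div_eq_div_iff (pow_ne_zero _ (pow_ne_zero _ hne)) (pow_ne_zero _ hne)]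
  push_cast
  ring

lemma deriv_F (h0 : 0 ≤ c) (h1 : c < 1) {z : ℂ} (hz : z ∈ ball (0 : ℂ) 1) :
    deriv (F c) z = 1 / (1 - c * z) ^ 2 :=
  (hasDeriv_F h0 h1 (ball_subset_closedBall hz)).deriv

lemma deriv_F' (h0 : 0 ≤ c) (h1 : c < 1) {z : ℂ} (hz : z ∈ ball (0 : ℂ) 1) :
    deriv (deriv (F c)) z = 2 * c / (1 - c * z) ^ 3 := by
  have : deriv (F c) =ᶠ[nhds z] fun z : ℂ => 1 / (1 - (c : ℂ) * z) ^ 2 := by
    filter_upwards [isOpen_ball.mem_nhds hz] with w hw
    exact deriv_F h0 h1 hw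
  rw [this.deriv_eq]
  exact (hasDeriv_F' h0 h1 (ball_subset_closedBall hz)).deriv

lemma image_F (h0 : 0 ≤ c) (h1 : c < 1) :
    F c '' ball 0 1 = ball ((c / (1 - c ^ 2) : ℝ) : ℂ) (1 / (1 - c ^ 2)) := by
  have hc2 : 0 < 1 - c ^ 2 := by nlinarith
  have key : ∀ w : ℂ, w ∈ ball ((c / (1 - c ^ 2) : ℝ) : ℂ) (1 / (1 - c ^ 2)) ↔
      Complex.normSq w < Complex.normSq (1 + c * w) := by
    intro w
    rw [mem_ball, dist_eq_norm, ← sq_lt_sq₀ (norm_nonneg _) (by positivity),
      ← Complex.normSq_eq_norm_sq, Complex.normSq_apply, Complex.normSq_apply,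
      Complex.normSq_apply]
    simp only [Complex.sub_re, Complex.sub_im, Complex.ofReal_re, Complex.ofReal_im, sub_zero,
      Complex.add_re, Complex.add_im, Complex.mul_re, Complex.mul_im, Complex.one_re,
      Complex.one_im, zero_mul, sub_zero, add_zero, zero_add]
    have e : (w.re - c / (1 - c ^ 2)) * (w.re - c / (1 - c ^ 2)) + w.im * w.im
        - (1 / (1 - c ^ 2)) ^ 2 = ((w.re * w.re + w.im * w.im)
        - ((1 + c * w.re) * (1 + c * w.re) + c * w.im * (c * w.im))) / (1 - c ^ 2) := by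
      field_simp
      ring
    constructor
    · intro h
      have h2 : ((w.re * w.re + w.im * w.im)
        - ((1 + c * w.re) * (1 + c * w.re) + c * w.im * (c * w.im))) / (1 - c ^ 2) < 0 := by
        rw [← e]; linarith
      rw [div_lt_iff₀ hc2, zero_mul] at h2
      linarith
    · intro h
      have h2 : ((w.re * w.re + w.im * w.im)
        - ((1 + c * w.re) * (1 + c * w.re) + c * w.im * (c * w.im))) / (1 - c ^ 2) < 0 := by
        rw [div_lt_iff₀ hc2, zero_mul]
        linarith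
      rw [← e] at h2; linarith
  ext w
  rw [key]
  constructor
  · rintro ⟨z, hz, rfl⟩
    have hne := den_ne h0 h1 (ball_subset_closedBall hz)
    have e : 1 + (c : ℂ) * F c z = 1 / (1 - c * z) := by
      unfold F; field_simp; ring
    have hz1 : ‖z‖ < 1 := by simpa using hz
    rw [e]
    unfold F
    rw [map_div₀, map_div₀, map_one]
    have hp : 0 < Complex.normSq (1 - c * z) := Complex.normSq_pos.2 hne
    apply div_lt_div_of_pos_right _ hp
    rw [Complex.normSq_eq_norm_sq]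
    nlinarith [norm_nonneg z]
  · intro h
    have hp : 0 < Complex.normSq (1 + c * w) := lt_of_le_of_lt (Complex.normSq_nonneg _) h
    have hne : 1 + (c : ℂ) * w ≠ 0 := Complex.normSq_pos.1 hp
    refine ⟨w / (1 + c * w), ?_, ?_⟩
    · rw [mem_ball, dist_zero_right, ← sq_lt_one_iff₀ (norm_nonneg _),
        ← Complex.normSq_eq_norm_sq, map_div₀, div_lt_one hp]
      exact h
    · unfold F
      have : 1 - (c : ℂ) * (w / (1 + c * w)) = 1 / (1 + c * w) := by field_simp; ring
      rw [this, div_div_div_cancel_right₀ hne, div_one]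

lemma memCV_F (h0 : 0 ≤ c) (h1 : c < 1) {R₁ R₂ : ℝ} (hR₁ : R₁ ≤ 1 - c ^ 2)
    (hR₂ : 1 - c ^ 2 ≤ R₂) : MemCV R₁ R₂ (F c) where
  analytic := fun z hz =>
    (hasDeriv_F h0 h1 (ball_subset_closedBall hz)).differentiableAt.differentiableWithinAt
  univalent := by
    intro z hz w hw h
    have hz' := den_ne h0 h1 (ball_subset_closedBall hz)
    have hw' := den_ne h0 h1 (ball_subset_closedBall hw)
    unfold F at h
    rw [div_eq_div_iff hz' hw'] at h
    linear_combination h
  convex := by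
    rw [image_F h0 h1]
    exact convex_ball _ _
  zero := by simp [F]
  one := by
    rw [deriv_F h0 h1 (by simp)]
    simp
  boundary := by
    refine ⟨F c, fun z => 1 / (1 - c * z) ^ 2, fun z => 2 * c / (1 - c * z) ^ 3, ?_, ?_, ?_, ?_,
      ?_, ?_, ?_, ?_⟩
    · exact fun z hz => (hasDeriv_F h0 h1 hz).continuousAt.continuousWithinAt
    · exact fun z hz => (hasDeriv_F' h0 h1 hz).continuousAt.continuousWithinAt
    · apply ContinuousOn.div continuousOn_const
      · fun_prop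
      · intro z hz
        exact pow_ne_zero _ (den_ne h0 h1 hz)
    · exact fun z _ => rfl
    · exact fun z hz => (deriv_F h0 h1 hz).symm
    · exact fun z hz => (deriv_F' h0 h1 hz).symm
    · intro z hz
      exact div_ne_zero one_ne_zero (pow_ne_zero _ (den_ne h0 h1 hz))
    · intro z hz
      have hne := den_ne h0 h1 (sphere_subset_closedBall hz)
      have hz1 : Complex.normSq z = 1 := by
        rw [Complex.normSq_eq_norm_sq]
        have : ‖z‖ = 1 := by simpa using hz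
        rw [this]; norm_num
      have e1 : 1 + z * (2 * (c : ℂ) / (1 - c * z) ^ 3) / (1 / (1 - c * z) ^ 2)
          = (1 + c * z) / (1 - c * z) := by
        obtain ⟨d, hd⟩ : ∃ d : ℂ, d = 1 - c * z := ⟨_, rfl⟩
        rw [← hd] at hne ⊢
        field_simp
        linear_combination hd
      have e2 : ((1 + (c : ℂ) * z) / (1 - c * z)).re
          = (1 - c ^ 2) / Complex.normSq (1 - c * z) := by
        rw [Complex.div_re]
        have hp : Complex.normSq (1 - c * z) ≠ 0 := (Complex.normSq_pos.2 hne).ne'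
        rw [← add_div]
        congr 1
        rw [Complex.normSq_apply] at hz1
        simp only [Complex.add_re, Complex.one_re, Complex.mul_re, Complex.ofReal_re,
          Complex.ofReal_im, Complex.sub_re, Complex.add_im, Complex.one_im, Complex.mul_im,
          Complex.sub_im]
        linear_combination (-c ^ 2) * hz1
      have e3 : ‖1 / (1 - (c : ℂ) * z) ^ 2‖ = 1 / Complex.normSq (1 - c * z) := by
        rw [norm_div, norm_one, norm_pow, Complex.normSq_eq_norm_sq]
      have e4 : (1 + z * (2 * (c : ℂ) / (1 - c * z) ^ 3) / (1 / (1 - c * z) ^ 2)).re /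
          ‖1 / (1 - (c : ℂ) * z) ^ 2‖ = 1 - c ^ 2 := by
        rw [e1, e2, e3]
        have hp : Complex.normSq (1 - c * z) ≠ 0 := (Complex.normSq_pos.2 hne).ne'
        field_simp
      rw [e4]
      exact ⟨hR₁, hR₂⟩

lemma a₂_F (h0 : 0 ≤ c) (h1 : c < 1) : ‖a₂ (F c)‖ = c := by
  unfold a₂
  rw [deriv_F' h0 h1 (by simp)]
  simp [abs_of_nonneg h0]

end example_functions

/-- **The sharp value of the second coefficient.**  Let `0 ≤ R₁ ≤ R₂`.
(1) `CV(R₁, R₂)` is nonempty iff `R₁ ≤ 1` and `0 < R₂`.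
(2) If it is nonempty, the supremum of `|a₂|` over `CV(R₁, R₂)` is `√(1 - R₁)`.
(3) For `0 < R₁ ≤ 1` the supremum is attained. -/
theorem result (R₁ R₂ : ℝ) (h0 : 0 ≤ R₁) (h12 : R₁ ≤ R₂) :
    ((∃ f, MemCV R₁ R₂ f) ↔ R₁ ≤ 1 ∧ 0 < R₂) ∧
    ((∃ f, MemCV R₁ R₂ f) →
      IsLUB {x : ℝ | ∃ f, MemCV R₁ R₂ f ∧ x = ‖a₂ f‖} (Real.sqrt (1 - R₁))) ∧
    (0 < R₁ → R₁ ≤ 1 → ∃ f, MemCV R₁ R₂ f ∧ ‖a₂ f‖ = Real.sqrt (1 - R₁)) := by
  have hex : ∀ t : ℝ, 0 < t → t ≤ 1 → R₁ ≤ t → t ≤ R₂ →
      ∃ f, MemCV R₁ R₂ f ∧ ‖a₂ f‖ = Real.sqrt (1 - t) := by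
    intro t ht ht1 h1 h2
    have hc0 : 0 ≤ Real.sqrt (1 - t) := Real.sqrt_nonneg _
    have hc1 : Real.sqrt (1 - t) < 1 := by
      rw [Real.sqrt_lt' one_pos]; linarith
    have hsq : Real.sqrt (1 - t) ^ 2 = 1 - t := Real.sq_sqrt (by linarith)
    exact ⟨F (Real.sqrt (1 - t)), memCV_F hc0 hc1 (by rw [hsq]; linarith) (by rw [hsq]; linarith),
      a₂_F hc0 hc1⟩
  have hne : (∃ f, MemCV R₁ R₂ f) ↔ R₁ ≤ 1 ∧ 0 < R₂ := by
    constructor
    · rintro ⟨f, hf⟩
      obtain ⟨h1, h2⟩ := upper h0 hf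
      exact ⟨by nlinarith [sq_nonneg ‖a₂ f‖], h2⟩
    · rintro ⟨h1, h2⟩
      obtain ⟨f, hf, -⟩ := hex (min 1 R₂) (lt_min one_pos h2) (min_le_left _ _)
        (le_min h1 h12) (min_le_right _ _)
      exact ⟨f, hf⟩
  refine ⟨hne, ?_, ?_⟩
  · intro hn
    obtain ⟨h1, h2⟩ := hne.1 hn
    constructor
    · rintro x ⟨f, hf, rfl⟩
      obtain ⟨h3, -⟩ := upper h0 hf
      exact Real.le_sqrt_of_sq_le (by linarith)
    · intro b hb
      rcases h0.eq_or_lt with h | h
      · -- `R₁ = 0`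
        subst h
        have hsup : ∀ t : ℝ, 0 < t → t ≤ min 1 R₂ → Real.sqrt (1 - t) ≤ b := by
          intro t ht htm
          obtain ⟨f, hf, hf2⟩ := hex t ht (le_trans htm (min_le_left _ _)) ht.le
            (le_trans htm (min_le_right _ _))
          exact hb ⟨f, hf, hf2.symm⟩
        have hlim : Filter.Tendsto (fun t : ℝ => Real.sqrt (1 - t))
            (nhdsWithin 0 (Set.Ioi 0)) (nhds (Real.sqrt (1 - 0))) := by
          apply Filter.Tendsto.mono_left _ nhdsWithin_le_nhds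
          have : Continuous fun t : ℝ => Real.sqrt (1 - t) := by fun_prop
          exact this.tendsto 0
        refine le_of_tendsto hlim ?_
        have hm : 0 < min 1 R₂ := lt_min one_pos h2
        filter_upwards [Ioc_mem_nhdsGT hm] with t ht
        exact hsup t ht.1 ht.2
      · obtain ⟨f, hf, hf2⟩ := hex R₁ h h1 le_rfl h12
        exact hb ⟨f, hf, hf2.symm⟩
  · intro h h1
    exact hex R₁ h h1 le_rfl h12

end Pool.Agent.Results.MP_2970b2_an.SecondCoefficient
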